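import Pool.Agent.H91.FP6

set_option autoImplicit false

open H91FR in
theorem Pool.Agent.Results.MP_123484_an.StateNotIso.result :
   
    ∀ (A : Type) [CStarAlgebra A] [Nontrivial A] (s : ℕ → A), H91FP.CuntzGen s →
      ∃ σ ω : A →ₗ[ℂ] ℂ, H91FP.IsState σ ∧ H91FP.IsState ω ∧
        ∀ (D : Type) [CStarAlgebra D] (ρ : D →ₗ[ℂ] ℂ) (π : ℕ → A →⋆ₐ[ℂ] D),
          H91FP.FreePow σ ρ π →
          ∀ (E : Type) [CStarAlgebra E] (τ : E →ₗ[ℂ] ℂ) (i : A →⋆ₐ[ℂ] E) (j : D →⋆ₐ[ℂ] E),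
            H91FQ.FreeProd ω ρ τ i j → ¬ ∃ θ : E ≃⋆ₐ[ℂ] D, ∀ x, ρ (θ x) = τ x :=
  main
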